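import Pool.Agent.H8.Od18

/-!
# Ordered groups that are abelian-by-nilpotent and nilpotent-by-abelian

Every ordered group that is both abelian-by-nilpotent and nilpotent-by-abelian embeds, as an
ordered group, in a divisible ordered group.
-/

namespace Pool.Agent.Results.MP_75351f_al.DivisibleEmbedding

open scoped commutatorElement

universe u

/-- `G` has a normal abelian subgroup with nilpotent quotient. -/
def AbelianByNilpotent (G : Type u) [Group G] : Prop :=
  ∃ (A : Subgroup G) (_ : A.Normal),
    (∀ a ∈ A, ∀ b ∈ A, a * b = b * a) ∧ Group.IsNilpotent (G ⧸ A)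

/-- `G` has a normal nilpotent subgroup with abelian quotient. -/
def NilpotentByAbelian (G : Type u) [Group G] : Prop :=
  ∃ (N : Subgroup G) (_ : N.Normal),
    Group.IsNilpotent N ∧ ∀ a b : G ⧸ N, a * b = b * a

theorem result (G : Type u) [Group G] [LinearOrder G]
    (hleft : ∀ a b c : G, a ≤ b → c * a ≤ c * b)
    (hright : ∀ a b c : G, a ≤ b → a * c ≤ b * c)
    (hAN : AbelianByNilpotent G) (hNA : NilpotentByAbelian G) :
    ∃ (H : Type u) (_ : Group H) (_ : LinearOrder H) (φ : G →* H),
      (∀ a b c : H, a ≤ b → c * a ≤ c * b) ∧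
      (∀ a b c : H, a ≤ b → a * c ≤ b * c) ∧
      (∀ (h : H) (n : ℕ), 1 ≤ n → ∃ x : H, x ^ n = h) ∧
      Function.Injective φ ∧
      ∀ a b : G, a ≤ b → φ a ≤ φ b := by
  have ml : MulLeftMono G := ⟨fun c a b h => hleft a b c h⟩
  have mr : MulRightMono G := ⟨fun c a b h => hright a b c h⟩
  obtain ⟨V, hVn, hV, hnil⟩ := hAN
  obtain ⟨N, hNn, hNnil, hNc⟩ := hNA
  obtain ⟨c, hc⟩ := Pool.H8.exists_nilC hnil
  obtain ⟨d, hd⟩ := (Subgroup.isNilpotent_iff_lowerCentralSeries N).mp hNnil
  obtain ⟨Γ, iΓ, B, ι, h1, h2⟩ := Pool.H8.main_aux V hV hc N hd (by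
    intro a b
    apply (QuotientGroup.eq_one_iff _).mp
    have h3 := hNc (QuotientGroup.mk' N a) (QuotientGroup.mk' N b)
    have h4 := commutatorElement_eq_one_iff_mul_comm.mpr h3
    rw [← map_commutatorElement] at h4
    exact h4)
  have hinj : Function.Injective ι := by
    rw [injective_iff_map_eq_one]
    intro a ha
    by_contra hne
    rcases lt_or_gt_of_ne hne with h | h
    · have h3 := h2 a⁻¹ (one_lt_inv'.mpr h)
      rw [map_inv, ha, inv_one] at h3
      exact B.one h3
    · have h3 := h2 a h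
      rw [ha] at h3
      exact B.one h3
  refine ⟨Γ, iΓ, B.linearOrder, ι, ?_, ?_, ?_, hinj, ?_⟩
  · exact fun a b c h => B.mul_left a b c h
  · exact fun a b c h => B.mul_right a b c h
  · exact fun h n hn => h1 h n hn
  · intro a b hab
    rcases hab.eq_or_lt with h | h
    · left
      rw [h]
    · right
      rw [← map_inv, ← map_mul]
      apply h2
      have := mul_lt_mul_right h a⁻¹
      rwa [inv_mul_cancel] at this

end Pool.Agent.Results.MP_75351f_al.DivisibleEmbedding
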